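import Pool.Agent.PCO.StmtsA

/-! Squad PCO (MP_e54c4c_gt), row WBF (helper55): the subspace of a box. -/

set_option autoImplicit false

open Matrix Filter Topology

noncomputable section

namespace Pool.Agent.PCO.H55

open Pool.Agent.PFS Pool.Agent.PFJ Pool.Agent.PCO

theorem mem_wb {n : ℕ} (U : Submodule ℝ (V n)) (v x : V n) :
    x ∈ Wb U v ↔ ∃ y ∈ U, ∃ τ : ℝ, x = y + τ • v := by
  unfold Wb
  rw [Submodule.mem_sup]
  constructor
  · rintro ⟨y, hy, z, hz, h⟩
    obtain ⟨τ, hτ⟩ := Submodule.mem_span_singleton.1 hz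
    exact ⟨y, hy, τ, by rw [hτ, h]⟩
  · rintro ⟨y, hy, τ, h⟩
    exact ⟨y, hy, τ • v, Submodule.smul_mem _ _ (Submodule.mem_span_singleton_self v), h.symm⟩

theorem img_inj {n : ℕ} (g : GL (Fin n) ℝ) :
    Function.Injective (Matrix.mulVecLin (g : Matrix (Fin n) (Fin n) ℝ)) := fun _ _ hxy =>
  CC.act_injective g hxy

theorem wbf : WbfStmt := by
  intro n
  refine ⟨mem_wb, ?_, ?_, ?_, ?_⟩
  · intro g U v
    unfold img Wb
    rw [Submodule.map_sup, Submodule.map_span, Set.image_singleton]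
    rfl
  · intro U v c hc
    ext x
    rw [mem_wb, mem_wb]
    constructor
    · rintro ⟨y, hy, τ, h⟩
      exact ⟨y, hy, τ * c, by rw [h, smul_smul]⟩
    · rintro ⟨y, hy, τ, h⟩
      exact ⟨y, hy, τ * c⁻¹, by rw [h, smul_smul, mul_assoc, inv_mul_cancel₀ hc, mul_one]⟩
  · intro U v
    apply le_antisymm
    · apply iSup_le
      intro a
      fin_cases a
      · exact le_sup_left
      · exact le_sup_right
      · exact bot_le
    · apply sup_le
      · exact le_iSup (bL U v) 0
      · exact le_iSup (bL U v) 1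
  · intro g U
    exact (Submodule.equivMapOfInjective _ (img_inj g) U).finrank_eq.symm

end Pool.Agent.PCO.H55
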